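import Mathlib

set_option autoImplicit false

/-!
# The question has a negative answer for one-to-one maps as well

The uniform mesh `{0, 1/n, ..., 1}` is cut into `2 * N` blocks of `W = 8 * c + 4 + 2 * Q` consecutive
points. Every block consists of a left part with `4 * c + 2` points, a plateau with `2 * Q` points
and a right part with `4 * c + 2` points. The level `lev` of a point is an integer between `0` and
`2 * c`; neighbouring points have levels that differ by at most `1`, the plateau has level `c`, and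
each level occurs exactly twice in the left part and exactly twice in the right part. The involution
`tau` of the block exchanges the points of the left part with points of the same level in the right
part, and exchanges the two halves of the plateau. A chain has to climb through all the levels
`0, ..., 2 * c` in order to cross a block.
-/

namespace Pool.Agent.Results.MP_4e7ec3_co.InvolutionTrap

/-- The uniform mesh `{0, 1/n, ..., n/n}`. -/
noncomputable def mesh (n : ℕ) : Finset ℝ :=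
  (Finset.range (n + 1)).image fun i : ℕ => (i : ℝ) / n

/-- `q` is a neighbour of `r` in `F`: a point of `F` different from `r` such that no point of `F`
lies strictly between the two. -/
def IsNbr (F : Finset ℝ) (r q : ℝ) : Prop :=
  q ∈ F ∧ q ≠ r ∧ ∀ s ∈ F, ¬ (r < s ∧ s < q) ∧ ¬ (q < s ∧ s < r)

/-- The steps allowed here, more than the permissible ones: from `p` to a neighbour of `p`, and,
for `p'` equal to `p` or a neighbour of `p`, to `T p'` or to a neighbour of `T p'`. -/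
def Step (F : Finset ℝ) (T : ℝ → ℝ) (p q : ℝ) : Prop :=
  IsNbr F p q ∨ ∃ p', (p' = p ∨ IsNbr F p p') ∧ (q = T p' ∨ IsNbr F (T p') q)

/-- The level of the `x`-th point of a block. -/
def lev (c Q x : ℕ) : ℕ :=
  if x < 2 * c then x / 2
  else if x ≤ 3 * c then x - c
  else if x ≤ 4 * c + 1 then 5 * c + 1 - x
  else if x < 4 * c + 2 + 2 * Q then c
  else if x - (4 * c + 2 + 2 * Q) ≤ c then c - (x - (4 * c + 2 + 2 * Q))
  else if x - (4 * c + 2 + 2 * Q) ≤ 2 * c + 1 then x - (4 * c + 2 + 2 * Q) - (c + 1)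
  else c + 1 + (x - (4 * c + 2 + 2 * Q) - (2 * c + 2)) / 2

/-- The involution of a block. -/
def tau (c Q x : ℕ) : ℕ :=
  if x ≤ 2 * c then
    (if x % 2 = 0 then 4 * c + 2 + 2 * Q + (c - x / 2) else 4 * c + 2 + 2 * Q + (c + 1 + x / 2))
  else if x ≤ 3 * c then 4 * c + 2 + 2 * Q + 2 * (x - c)
  else if x ≤ 4 * c + 1 then 4 * c + 2 + 2 * Q + (2 * (5 * c + 1 - x) + 1)
  else if x < 4 * c + 2 + Q then x + Q
  else if x < 4 * c + 2 + 2 * Q then x - Q
  else if x - (4 * c + 2 + 2 * Q) ≤ c then 2 * (c - (x - (4 * c + 2 + 2 * Q)))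
  else if x - (4 * c + 2 + 2 * Q) ≤ 2 * c then 2 * (x - (4 * c + 2 + 2 * Q) - c - 1) + 1
  else if (x - (4 * c + 2 + 2 * Q)) % 2 = 1 then 5 * c + 1 - (x - (4 * c + 2 + 2 * Q)) / 2
  else c + (x - (4 * c + 2 + 2 * Q)) / 2

theorem tau_lt (c Q x : ℕ) (hx : x < 8 * c + 4 + 2 * Q) : tau c Q x < 8 * c + 4 + 2 * Q := by
  unfold tau
  split_ifs <;> omega

theorem tau_far (c Q x : ℕ) (hx : x < 8 * c + 4 + 2 * Q) :
    x + Q ≤ tau c Q x ∨ tau c Q x + Q ≤ x := by
  unfold tau
  split_ifs <;> omega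

theorem lev_le (c Q x : ℕ) (hx : x < 8 * c + 4 + 2 * Q) : lev c Q x ≤ 2 * c := by
  unfold lev
  split_ifs <;> omega

theorem lev_succ (c Q x : ℕ) (hx : x + 1 < 8 * c + 4 + 2 * Q) :
    lev c Q (x + 1) ≤ lev c Q x + 1 ∧ lev c Q x ≤ lev c Q (x + 1) + 1 := by
  unfold lev
  split_ifs <;> omega

theorem lev_zero (c Q : ℕ) (hc : 1 ≤ c) : lev c Q 0 = 0 := by
  unfold lev
  split_ifs <;> omega

theorem lev_last (c Q : ℕ) (hc : 1 ≤ c) : lev c Q (8 * c + 3 + 2 * Q) = 2 * c := by
  unfold lev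
  split_ifs <;> omega

theorem lev_tau (c Q x : ℕ) (hc : 1 ≤ c) (hx : x < 8 * c + 4 + 2 * Q) :
    lev c Q (tau c Q x) = lev c Q x := by
  unfold tau
  split_ifs <;> (unfold lev; split_ifs <;> omega)

theorem tau_tau (c Q x : ℕ) (hx : x < 8 * c + 4 + 2 * Q) : tau c Q (tau c Q x) = x := by
  conv_lhs => arg 3; unfold tau
  split_ifs <;> (unfold tau; split_ifs <;> omega)

/-- The involution of the index set: `tau` in every block. -/
def tt (c Q i : ℕ) : ℕ :=
  i / (8 * c + 4 + 2 * Q) * (8 * c + 4 + 2 * Q) + tau c Q (i % (8 * c + 4 + 2 * Q))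

/-- The global level. -/
def gg (c Q i : ℕ) : ℕ :=
  i / (8 * c + 4 + 2 * Q) * (2 * c + 1) + lev c Q (i % (8 * c + 4 + 2 * Q))

theorem tt_div (c Q i : ℕ) : tt c Q i / (8 * c + 4 + 2 * Q) = i / (8 * c + 4 + 2 * Q) := by
  unfold tt
  have h := tau_lt c Q (i % (8 * c + 4 + 2 * Q)) (Nat.mod_lt _ (by omega))
  rw [Nat.mul_comm, Nat.mul_add_div (by omega), Nat.div_eq_of_lt h, Nat.add_zero]

theorem tt_mod (c Q i : ℕ) :
    tt c Q i % (8 * c + 4 + 2 * Q) = tau c Q (i % (8 * c + 4 + 2 * Q)) := by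
  unfold tt
  have h := tau_lt c Q (i % (8 * c + 4 + 2 * Q)) (Nat.mod_lt _ (by omega))
  rw [Nat.mul_comm, Nat.mul_add_mod, Nat.mod_eq_of_lt h]

theorem tt_tt (c Q i : ℕ) : tt c Q (tt c Q i) = i := by
  have h1 := tt_div c Q i
  have h2 := tt_mod c Q i
  have h3 := tau_tau c Q (i % (8 * c + 4 + 2 * Q)) (Nat.mod_lt _ (by omega))
  have h4 : tt c Q (tt c Q i) = tt c Q i / (8 * c + 4 + 2 * Q) * (8 * c + 4 + 2 * Q) +
      tau c Q (tt c Q i % (8 * c + 4 + 2 * Q)) := rfl
  rw [h4, h1, h2, h3]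
  exact Nat.div_add_mod' i _

theorem gg_tt (c Q i : ℕ) (hc : 1 ≤ c) : gg c Q (tt c Q i) = gg c Q i := by
  unfold gg
  rw [tt_div, tt_mod, lev_tau c Q _ hc (Nat.mod_lt _ (by omega))]

theorem tt_far (c Q i : ℕ) : i + Q ≤ tt c Q i ∨ tt c Q i + Q ≤ i := by
  have h := tau_far c Q (i % (8 * c + 4 + 2 * Q)) (Nat.mod_lt _ (by omega))
  have h2 := Nat.div_add_mod' i (8 * c + 4 + 2 * Q)
  unfold tt
  omega

theorem tt_lt (c Q i B : ℕ) (hi : i < B * (8 * c + 4 + 2 * Q)) :
    tt c Q i < B * (8 * c + 4 + 2 * Q) := by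
  have h1 : i / (8 * c + 4 + 2 * Q) < B := Nat.div_lt_of_lt_mul (by rwa [Nat.mul_comm])
  have h2 := tt_div c Q i
  have h3 : tt c Q i / (8 * c + 4 + 2 * Q) < B := by omega
  exact (Nat.div_lt_iff_lt_mul (by omega)).1 h3

theorem gg_succ (c Q i : ℕ) (hc : 1 ≤ c) :
    gg c Q (i + 1) ≤ gg c Q i + 1 ∧ gg c Q i ≤ gg c Q (i + 1) + 1 := by
  have hW : 0 < 8 * c + 4 + 2 * Q := by omega
  have hm := Nat.mod_lt i hW
  have hd := Nat.div_add_mod' i (8 * c + 4 + 2 * Q)
  rcases Nat.lt_or_ge (i % (8 * c + 4 + 2 * Q) + 1) (8 * c + 4 + 2 * Q) with h | h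
  · have e1 : (i + 1) % (8 * c + 4 + 2 * Q) = i % (8 * c + 4 + 2 * Q) + 1 := by
      rw [Nat.add_mod, Nat.mod_eq_of_lt (show 1 < 8 * c + 4 + 2 * Q by omega), Nat.mod_eq_of_lt h]
    have e2 : (i + 1) / (8 * c + 4 + 2 * Q) = i / (8 * c + 4 + 2 * Q) := by
      have hd' := Nat.div_add_mod' (i + 1) (8 * c + 4 + 2 * Q)
      rw [e1] at hd'
      have : (i + 1) / (8 * c + 4 + 2 * Q) * (8 * c + 4 + 2 * Q) =
          i / (8 * c + 4 + 2 * Q) * (8 * c + 4 + 2 * Q) := by omega
      exact Nat.eq_of_mul_eq_mul_right hW this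
    have h1 := lev_succ c Q _ h
    unfold gg
    rw [e1, e2]
    omega
  · have e0 : i % (8 * c + 4 + 2 * Q) = 8 * c + 3 + 2 * Q := by omega
    have e3 : i + 1 = (i / (8 * c + 4 + 2 * Q) + 1) * (8 * c + 4 + 2 * Q) := by
      rw [Nat.add_mul, Nat.one_mul]; omega
    have e1 : (i + 1) % (8 * c + 4 + 2 * Q) = 0 := by
      rw [e3]; exact Nat.mul_mod_left _ _
    have e2 : (i + 1) / (8 * c + 4 + 2 * Q) = i / (8 * c + 4 + 2 * Q) + 1 := by
      conv_lhs => rw [e3]
      exact Nat.mul_div_cancel _ hW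
    unfold gg
    rw [e1, e2, e0, lev_zero c Q hc, lev_last c Q hc, Nat.add_mul]
    omega

theorem gg_close (c Q i j : ℕ) (hc : 1 ≤ c) (hij : i ≤ j) (h : gg c Q j ≤ gg c Q i + 2 * c) :
    j ≤ i + (2 * (8 * c + 4 + 2 * Q) - 2) := by
  have hW : 0 < 8 * c + 4 + 2 * Q := by omega
  have hmi := Nat.mod_lt i hW
  have hdi := Nat.div_add_mod' i (8 * c + 4 + 2 * Q)
  have hmj := Nat.mod_lt j hW
  have hdj := Nat.div_add_mod' j (8 * c + 4 + 2 * Q)
  have hli := lev_le c Q _ hmi
  have hle : i / (8 * c + 4 + 2 * Q) ≤ j / (8 * c + 4 + 2 * Q) := Nat.div_le_div_right hij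
  unfold gg at h
  obtain ⟨d, hd⟩ := Nat.exists_eq_add_of_le hle
  rw [hd] at h hdj
  rw [Nat.add_mul] at h hdj
  have hd1 : d ≤ 1 := by
    by_contra hcon
    have : 2 * (2 * c + 1) ≤ d * (2 * c + 1) := Nat.mul_le_mul_right _ (by omega)
    omega
  rcases Nat.eq_zero_or_pos d with h0 | h1
  · subst h0
    omega
  · have : d = 1 := by omega
    subst this
    by_contra hcon
    have e1 : i % (8 * c + 4 + 2 * Q) = 0 := by omega
    have e2 : j % (8 * c + 4 + 2 * Q) = 8 * c + 3 + 2 * Q := by omega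
    rw [e1, e2, lev_zero c Q hc, lev_last c Q hc] at h
    omega

/-- Neighbours in the mesh. -/
theorem nbr_mesh {n : ℕ} (hn : 0 < n) {i : ℕ} {q : ℝ} (hi : i ≤ n)
    (h : IsNbr (mesh n) ((i : ℝ) / n) q) : ∃ j ≤ n, q = (j : ℝ) / n ∧ (j = i + 1 ∨ i = j + 1) := by
  have hn0 : (0 : ℝ) < n := by exact_mod_cast hn
  obtain ⟨hq, hne, hb⟩ := h
  unfold mesh at hq
  rw [Finset.mem_image] at hq
  obtain ⟨j, hj, rfl⟩ := hq
  rw [Finset.mem_range] at hj
  refine ⟨j, by omega, rfl, ?_⟩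
  have hij : j ≠ i := by
    rintro rfl
    exact hne rfl
  rcases Nat.lt_or_gt_of_ne hij with hlt | hgt
  · right
    by_contra hcon
    have hmem : (((j + 1 : ℕ) : ℝ) / n) ∈ mesh n := by
      unfold mesh
      exact Finset.mem_image.2 ⟨j + 1, Finset.mem_range.2 (by omega), rfl⟩
    refine (hb _ hmem).2 ⟨?_, ?_⟩
    · apply div_lt_div_of_pos_right _ hn0
      exact_mod_cast Nat.lt_succ_self j
    · apply div_lt_div_of_pos_right _ hn0
      have : j + 1 < i := by omega
      exact_mod_cast this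
  · left
    by_contra hcon
    have hmem : (((i + 1 : ℕ) : ℝ) / n) ∈ mesh n := by
      unfold mesh
      exact Finset.mem_image.2 ⟨i + 1, Finset.mem_range.2 (by omega), rfl⟩
    refine (hb _ hmem).1 ⟨?_, ?_⟩
    · apply div_lt_div_of_pos_right _ hn0
      exact_mod_cast Nat.lt_succ_self i
    · apply div_lt_div_of_pos_right _ hn0
      have : i + 1 < j := by omega
      exact_mod_cast this

theorem gg_nbr (c Q i j : ℕ) (hc : 1 ≤ c) (h : j = i + 1 ∨ i = j + 1) :
    gg c Q j ≤ gg c Q i + 1 ∧ gg c Q i ≤ gg c Q j + 1 := by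
  rcases h with rfl | rfl
  · exact gg_succ c Q i hc
  · exact (gg_succ c Q j hc).symm

/-- For every `N ≥ 1`, every `ε` with `0 < ε < 1 / (4 * N)`, every number `K` of steps and every
`n₀` there is `n ≥ n₀` such that the uniform mesh `F = {0, 1/n, ..., 1}` has an involution `T`
(so `T` is a bijection of `F`), moving every point by more than `ε`, for which no chain of at
most `K` steps (in the extended sense of `Step`) reaches a point of `F` at distance `1 / N` or more
from its starting point. -/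
theorem result (N : ℕ) (hN : 1 ≤ N) (ε : ℝ) (hε : 0 < ε) (hεN : ε < 1 / (4 * N)) (K n₀ : ℕ) :
    ∃ n : ℕ, n₀ ≤ n ∧ 0 < n ∧ ∃ T : ℝ → ℝ,
      (∀ p ∈ mesh n, T p ∈ mesh n ∧ T (T p) = p ∧ ε < |p - T p|) ∧
        ∀ m ≤ K, ∀ x : ℕ → ℝ, x 0 ∈ mesh n → (∀ i < m, Step (mesh n) T (x i) (x (i + 1))) →
          |x m - x 0| < 1 / N := by
  have hN0 : (0 : ℝ) < N := by exact_mod_cast hN
  set c : ℕ := K + 1 with hcdef
  have hc : 1 ≤ c := by omega
  have hgap : 0 < 1 - 4 * N * ε := by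
    have : ε * (4 * N) < 1 := by
      rwa [lt_div_iff₀ (by positivity)] at hεN
    linarith
  obtain ⟨Q, hQ⟩ := exists_nat_gt (max (2 * N * ε * (8 * c + 4) / (1 - 4 * N * ε)) (n₀ : ℝ))
  have hQ1 : 2 * N * ε * (8 * c + 4) < Q * (1 - 4 * N * ε) := by
    have := lt_of_le_of_lt (le_max_left _ _) hQ
    rwa [div_lt_iff₀ hgap] at this
  have hQ2 : n₀ < Q := by
    have := lt_of_le_of_lt (le_max_right _ _) hQ
    exact_mod_cast this
  set W : ℕ := 8 * c + 4 + 2 * Q with hW
  have hWle : 2 * W ≤ 2 * N * W := by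
    have : 1 * W ≤ N * W := Nat.mul_le_mul_right _ hN
    have e : 2 * N * W = 2 * (N * W) := by ring
    rw [e]; omega
  set n : ℕ := 2 * N * W - 1 with hndef
  have hn1 : n + 1 = 2 * N * W := by omega
  have hnpos : 0 < n := by omega
  have hn0 : (0 : ℝ) < n := by exact_mod_cast hnpos
  have hnR : (n : ℝ) = 2 * N * W - 1 := by
    have : ((n + 1 : ℕ) : ℝ) = ((2 * N * W : ℕ) : ℝ) := by rw [hn1]
    push_cast at this
    linarith
  have hWR : (W : ℝ) = 8 * c + 4 + 2 * Q := by rw [hW]; push_cast; ring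
  set T : ℝ → ℝ := fun p => (tt c Q ⌊p * n⌋₊ : ℝ) / n with hT
  have hTi : ∀ i : ℕ, T ((i : ℝ) / n) = (tt c Q i : ℝ) / n := by
    intro i
    have : (i : ℝ) / n * n = i := by field_simp
    rw [hT]
    simp only
    rw [this, Nat.floor_natCast]
  have hmem : ∀ p, p ∈ mesh n ↔ ∃ i ≤ n, p = (i : ℝ) / n := by
    intro p
    unfold mesh
    rw [Finset.mem_image]
    constructor
    · rintro ⟨i, hi, rfl⟩
      rw [Finset.mem_range] at hi
      exact ⟨i, by omega, rfl⟩
    · rintro ⟨i, hi, rfl⟩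
      exact ⟨i, Finset.mem_range.2 (by omega), rfl⟩
  have htn : ∀ i ≤ n, tt c Q i ≤ n := by
    intro i hi
    have := tt_lt c Q i (2 * N) (by rw [← hW]; omega)
    rw [← hW] at this
    omega
  refine ⟨n, by omega, hnpos, T, ?_, ?_⟩
  · intro p hp
    obtain ⟨i, hi, rfl⟩ := (hmem p).1 hp
    refine ⟨?_, ?_, ?_⟩
    · rw [hTi]
      exact (hmem _).2 ⟨_, htn i hi, rfl⟩
    · have e1 : T (T ((i : ℝ) / n)) = T ((tt c Q i : ℝ) / n) := congrArg T (hTi i)
      have e2 := hTi (tt c Q i)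
      rw [tt_tt] at e2
      exact e1.trans e2
    · rw [hTi, ← sub_div, abs_div, abs_of_pos hn0, lt_div_iff₀ hn0]
      have hfar : (Q : ℝ) ≤ |(i : ℝ) - tt c Q i| := by
        rcases tt_far c Q i with h | h
        · have : (i : ℝ) + Q ≤ tt c Q i := by exact_mod_cast h
          rw [abs_sub_comm]
          exact le_trans (by linarith) (le_abs_self _)
        · have : (tt c Q i : ℝ) + Q ≤ i := by exact_mod_cast h
          exact le_trans (by linarith) (le_abs_self _)
      refine lt_of_lt_of_le ?_ hfar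
      rw [hnR, hWR]
      nlinarith
  · intro m hm x hx0 hst
    obtain ⟨a, ha, hxa⟩ := (hmem _).1 hx0
    have inv : ∀ i ≤ m, ∃ b ≤ n, x i = (b : ℝ) / n ∧ gg c Q b ≤ gg c Q a + 2 * i ∧
        gg c Q a ≤ gg c Q b + 2 * i := by
      intro i
      induction i with
      | zero => intro _; exact ⟨a, ha, hxa, by omega, by omega⟩
      | succ i ih =>
        intro hi
        obtain ⟨b, hb, hxb, h1, h2⟩ := ih (by omega)
        have hs := hst i (by omega)
        rw [hxb] at hs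
        rcases hs with hs | ⟨p', hp', hs⟩
        · obtain ⟨j, hj, hxj, hjb⟩ := nbr_mesh hnpos hb hs
          have h3 := gg_nbr c Q b j hc hjb
          exact ⟨j, hj, hxj, by omega, by omega⟩
        · have hp'' : ∃ b' ≤ n, p' = (b' : ℝ) / n ∧ gg c Q b' ≤ gg c Q b + 1 ∧
              gg c Q b ≤ gg c Q b' + 1 := by
            rcases hp' with rfl | h
            · exact ⟨b, hb, rfl, by omega, by omega⟩
            · obtain ⟨j, hj, hxj, hjb⟩ := nbr_mesh hnpos hb h
              have h3 := gg_nbr c Q b j hc hjb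
              exact ⟨j, hj, hxj, h3.1, h3.2⟩
          obtain ⟨b', hb', rfl, h3, h4⟩ := hp''
          rw [hTi] at hs
          have h5 := gg_tt c Q b' hc
          rcases hs with hs | hs
          · exact ⟨tt c Q b', htn b' hb', hs, by omega, by omega⟩
          · obtain ⟨j, hj, hxj, hjb⟩ := nbr_mesh hnpos (htn b' hb') hs
            have h6 := gg_nbr c Q _ j hc hjb
            exact ⟨j, hj, hxj, by omega, by omega⟩
    obtain ⟨b, hb, hxb, h1, h2⟩ := inv m le_rfl
    have hclose : b ≤ a + (2 * W - 2) ∧ a ≤ b + (2 * W - 2) := by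
      rcases le_total a b with h | h
      · have := gg_close c Q a b hc h (by omega)
        constructor <;> omega
      · have := gg_close c Q b a hc h (by omega)
        constructor <;> omega
    have hW2 : ((2 * W - 2 : ℕ) : ℝ) = 2 * W - 2 := by
      rw [Nat.cast_sub (by omega)]; push_cast; ring
    have hc1 : (b : ℝ) ≤ a + (2 * W - 2) := by
      rw [← hW2]; exact_mod_cast hclose.1
    have hc2 : (a : ℝ) ≤ b + (2 * W - 2) := by
      rw [← hW2]; exact_mod_cast hclose.2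
    rw [hxb, hxa, ← sub_div, abs_div, abs_of_pos hn0, div_lt_div_iff₀ hn0 hN0, hnR]
    have habs : |(b : ℝ) - a| ≤ 2 * W - 2 := by
      rw [abs_le]; constructor <;> linarith
    have hN1 : (1 : ℝ) ≤ N := by exact_mod_cast hN
    nlinarith

end Pool.Agent.Results.MP_4e7ec3_co.InvolutionTrap
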