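import Mathlib

set_option autoImplicit false

/-!
# A robust negative answer: traps in every fine set

`[0,1]` is cut into `N` cells of width `1 / N`. In each cell, `T` sends the points left of the
centre to a point `δ` to the right of the centre and the other points to a point `δ` to the left
of it, where `ε < δ < 1 / (2 * N)`. After its first use of `T`, a chain never leaves the cell it is
in, however the images and the points are perturbed by a small amount.
-/

namespace Pool.Agent.Results.MP_4e7ec3_co.RobustTrap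

/-- `q` is a neighbour of `r` in `F`: a point of `F` different from `r` such that no point of `F`
lies strictly between the two. -/
def IsNbr (F : Finset ℝ) (r q : ℝ) : Prop :=
  q ∈ F ∧ q ≠ r ∧ ∀ s ∈ F, ¬ (r < s ∧ s < q) ∧ ¬ (q < s ∧ s < r)

/-- The steps allowed here, more than the permissible ones: from `p` to a neighbour of `p`, and,
for `p'` equal to `p` or a neighbour of `p`, to `T p'` or to a neighbour of `T p'`. -/
def Step (F : Finset ℝ) (T : ℝ → ℝ) (p q : ℝ) : Prop :=
  IsNbr F p q ∨ ∃ p', (p' = p ∨ IsNbr F p p') ∧ (q = T p' ∨ IsNbr F (T p') q)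

/-- Metric form. For every `N ≥ 1`, every `ε` with `0 < ε < 1 / (2 * N)` and every number `n` of steps there is
`η > 0` such that every finite `F ⊆ [0,1]` that contains `0` and `1` and comes within `η` of every
point of `[0,1]` has a self-map `T`, moving every point by more than `ε`, for which every chain in
`F` of at most `n` steps stays at distance less than `1 / N` from its starting point; a step from
`p` may go to any point within `2 * η` of `p`, and to any point within `2 * η` of `T q` for any `q`
in `F` within `2 * η` of `p`. -/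
theorem metric (N : ℕ) (hN : 1 ≤ N) (ε : ℝ) (hε : 0 < ε) (hεN : ε < 1 / (2 * N)) (n : ℕ) :
    ∃ η : ℝ, 0 < η ∧ ∀ F : Finset ℝ, (∀ p ∈ F, 0 ≤ p ∧ p ≤ 1) → (0 : ℝ) ∈ F → (1 : ℝ) ∈ F →
      (∀ y : ℝ, 0 ≤ y → y ≤ 1 → ∃ p ∈ F, |y - p| ≤ η) →
      ∃ T : ℝ → ℝ, (∀ p ∈ F, T p ∈ F ∧ ε < |p - T p|) ∧
        ∀ m ≤ n, ∀ x : ℕ → ℝ, (∀ i ≤ m, x i ∈ F) →
          (∀ i < m, |x (i + 1) - x i| ≤ 2 * η ∨
            ∃ q ∈ F, |q - x i| ≤ 2 * η ∧ |x (i + 1) - T q| ≤ 2 * η) →
          |x m - x 0| < 1 / N := by
  have hN0 : (0 : ℝ) < N := by exact_mod_cast hN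
  have hw : (1 : ℝ) / N = 2 * (1 / (2 * N)) := by field_simp
  set h : ℝ := 1 / (2 * N) with hh
  have hh0 : 0 < h := by rw [hh]; positivity
  have hNh : (N : ℝ) * (2 * h) = 1 := by rw [hh]; field_simp
  set γ : ℝ := (h - ε) / 2 with hγ
  have hγ0 : 0 < γ := by rw [hγ]; linarith
  set δ : ℝ := ε + γ with hδ
  have hδh : δ + γ = h := by rw [hδ, hγ]; ring
  set η : ℝ := γ / (8 * (n + 2)) with hη
  have hn2 : (0 : ℝ) < 8 * (n + 2) := by positivity
  have hη0 : 0 < η := by rw [hη]; positivity
  have hηγ : 8 * η * n + 16 * η = γ := by rw [hη]; field_simp; ring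
  have hηn : 0 ≤ η * n := by positivity
  refine ⟨η, hη0, ?_⟩
  intro F hF01 _ _ hdense
  -- centres of the cells
  set ctr : ℕ → ℝ := fun j => (2 * j + 1) * h with hctr
  have hctr01 : ∀ j < N, h ≤ ctr j ∧ ctr j ≤ 1 - h := by
    intro j hj
    have hj1 : (j : ℝ) + 1 ≤ N := by exact_mod_cast hj
    have hj0 : (0 : ℝ) ≤ j := by positivity
    constructor
    · rw [hctr]; nlinarith
    · rw [hctr]
      have : (2 * (j : ℝ) + 1) * h + h = (j + 1) * (2 * h) := by ring
      have h2 : ((j : ℝ) + 1) * (2 * h) ≤ N * (2 * h) :=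
        mul_le_mul_of_nonneg_right hj1 (by linarith)
      simp only
      linarith
  -- the two trap points of a cell
  have hP : ∀ j, ∃ p, j < N → p ∈ F ∧ |ctr j - δ - p| ≤ η := by
    intro j
    by_cases hj : j < N
    · obtain ⟨h1, h2⟩ := hctr01 j hj
      obtain ⟨p, hp, hp2⟩ := hdense (ctr j - δ) (by linarith) (by linarith)
      exact ⟨p, fun _ => ⟨hp, hp2⟩⟩
    · exact ⟨0, fun h => absurd h hj⟩
  have hQ : ∀ j, ∃ p, j < N → p ∈ F ∧ |ctr j + δ - p| ≤ η := by
    intro j
    by_cases hj : j < N
    · obtain ⟨h1, h2⟩ := hctr01 j hj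
      obtain ⟨p, hp, hp2⟩ := hdense (ctr j + δ) (by linarith) (by linarith)
      exact ⟨p, fun _ => ⟨hp, hp2⟩⟩
    · exact ⟨0, fun h => absurd h hj⟩
  choose P hP using hP
  choose Q hQ using hQ
  -- the cell of a point
  set cell : ℝ → ℕ := fun p => min (⌊p * N⌋₊) (N - 1) with hcell
  have hcellN : ∀ p, cell p < N := by
    intro p; rw [hcell]; simp only; omega
  have hcell1 : ∀ p, 0 ≤ p → p ≤ 1 → |p - ctr (cell p)| ≤ h := by
    intro p hp0 hp1
    have hpN : 0 ≤ p * N := by positivity
    have f1 := Nat.floor_le hpN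
    have f2 := Nat.lt_floor_add_one (p * N)
    have hpe : p = p * N * (2 * h) := by rw [mul_assoc, hNh, mul_one]
    rcases le_or_gt (⌊p * N⌋₊) (N - 1) with hle | hlt
    · have e : cell p = ⌊p * N⌋₊ := by rw [hcell]; simp only; omega
      rw [e, hctr, abs_le]
      simp only
      constructor <;> nlinarith
    · have e : cell p = N - 1 := by rw [hcell]; simp only; omega
      have hNle : (N : ℝ) ≤ (⌊p * N⌋₊ : ℝ) := by
        have : N ≤ ⌊p * N⌋₊ := by omega
        exact_mod_cast this
      have hp1' : p = 1 := by nlinarith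
      have hcast : ((N - 1 : ℕ) : ℝ) = N - 1 := by push_cast [Nat.cast_sub hN]; ring
      rw [e, hctr, abs_le]
      simp only
      rw [hcast, hp1']
      constructor <;> nlinarith
  -- a point deep inside a cell has that cell
  have hcell2 : ∀ p, 0 ≤ p → p ≤ 1 → ∀ j < N, |p - ctr j| < h → cell p = j := by
    intro p hp0 hp1 j hj hpj
    have h1 := hcell1 p hp0 hp1
    rw [abs_lt] at hpj
    rw [abs_le] at h1
    rw [hctr] at h1 hpj
    simp only at h1 hpj
    have a1 : ((cell p : ℝ)) < j + 1 := by nlinarith
    have a2 : (j : ℝ) < cell p + 1 := by nlinarith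
    have b1 : cell p < j + 1 := by exact_mod_cast a1
    have b2 : j < cell p + 1 := by exact_mod_cast a2
    omega
  set T : ℝ → ℝ := fun p => if p < ctr (cell p) then Q (cell p) else P (cell p) with hT
  have hTnear : ∀ p, |T p - ctr (cell p)| ≤ δ + η := by
    intro p
    have h1 := (hP (cell p) (hcellN p)).2
    have h2 := (hQ (cell p) (hcellN p)).2
    rw [abs_le] at h1 h2
    rw [hT]
    simp only
    split_ifs
    · rw [abs_le]; constructor <;> linarith
    · rw [abs_le]; constructor <;> linarith
  refine ⟨T, ?_, ?_⟩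
  · intro p _
    have h1 := hP (cell p) (hcellN p)
    have h2 := hQ (cell p) (hcellN p)
    rw [hT]
    simp only
    split_ifs with hlt
    · refine ⟨h2.1, ?_⟩
      have := h2.2
      rw [abs_le] at this
      rw [abs_sub_comm]
      refine lt_of_lt_of_le ?_ (le_abs_self _)
      linarith
    · refine ⟨h1.1, ?_⟩
      have := h1.2
      rw [abs_le] at this
      refine lt_of_lt_of_le ?_ (le_abs_self _)
      push Not at hlt
      linarith
  · intro m hm x hxF hstep
    -- the invariant
    have inv : ∀ i ≤ m, |x i - x 0| ≤ 2 * η * i ∨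
        ∃ j < N, |x i - ctr j| ≤ δ + 3 * η + 2 * η * i ∧ |x 0 - ctr j| ≤ h + 2 * η * i := by
      intro i
      induction i with
      | zero =>
        intro _
        left; simp
      | succ i ih =>
        intro hi
        have him : (i : ℝ) + 1 ≤ n := by
          have : i + 1 ≤ n := le_trans hi hm
          exact_mod_cast this
        have hηi : 2 * η * (i + 1) ≤ 2 * (η * n) := by nlinarith
        have hxi := hF01 _ (hxF i (by omega))
        push_cast
        rcases hstep i (by omega) with hs | ⟨q, hq, hq1, hq2⟩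
        · -- drift
          rw [abs_le] at hs
          rcases ih (by omega) with h1 | ⟨j, hj, h1, h2⟩
          · left
            rw [abs_le] at h1 ⊢
            constructor <;> linarith
          · right
            refine ⟨j, hj, ?_, ?_⟩
            · rw [abs_le] at h1 ⊢
              constructor <;> linarith
            · linarith
        · -- a step through `T`
          have hq01 := hF01 q hq
          have hTq := hTnear q
          right
          rcases ih (by omega) with h1 | ⟨j, hj, h1, h2⟩
          · refine ⟨cell q, hcellN q, ?_, ?_⟩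
            · have hi0 : 0 ≤ 2 * η * ((i : ℝ) + 1) := by positivity
              rw [abs_le] at hTq hq2 ⊢
              constructor <;> linarith
            · have h3 := hcell1 q hq01.1 hq01.2
              rw [abs_le] at h3 h1 hq1 ⊢
              constructor <;> linarith
          · have hcq : cell q = j := by
              apply hcell2 q hq01.1 hq01.2 j hj
              rw [abs_le] at h1 hq1
              rw [abs_lt]
              constructor <;> linarith
            refine ⟨j, hj, ?_, ?_⟩
            · rw [hcq] at hTq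
              have hi0 : 0 ≤ 2 * η * ((i : ℝ) + 1) := by positivity
              rw [abs_le] at hTq hq2 ⊢
              constructor <;> linarith
            · linarith
    have hmn : (m : ℝ) ≤ n := by exact_mod_cast hm
    have hηm : η * m ≤ η * n := mul_le_mul_of_nonneg_left hmn hη0.le
    rw [hw]
    rcases inv m le_rfl with h1 | ⟨j, _, h1, h2⟩
    · refine lt_of_le_of_lt h1 ?_
      linarith
    · rw [abs_le] at h1 h2
      rw [abs_lt]
      constructor <;> linarith

/-- In a set that comes within `η` of every point of `[0,1]`, neighbours are within `2 * η`. -/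
theorem nbr_near {F : Finset ℝ} {η : ℝ} (hF : ∀ p ∈ F, 0 ≤ p ∧ p ≤ 1)
    (hd : ∀ y : ℝ, 0 ≤ y → y ≤ 1 → ∃ p ∈ F, |y - p| ≤ η) {r q : ℝ} (hr : r ∈ F)
    (h : IsNbr F r q) : |q - r| ≤ 2 * η := by
  obtain ⟨hq, _, hb⟩ := h
  have h1 := hF r hr
  have h2 := hF q hq
  obtain ⟨s, hs, hs2⟩ := hd ((r + q) / 2) (by linarith) (by linarith)
  obtain ⟨h3, h4⟩ := hb s hs
  rw [abs_le] at hs2
  rw [abs_le]
  constructor
  · by_contra hc
    push Not at hc
    apply h4
    constructor <;> linarith
  · by_contra hc
    push Not at hc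
    apply h3
    constructor <;> linarith

/-- For every `N ≥ 1`, every `ε` with `0 < ε < 1 / (2 * N)` and every `n` there is `η > 0` such
that every finite `F ⊆ [0,1]` that contains `0` and `1` and comes within `η` of every point of
`[0,1]` has a self-map `T`, moving every point of `F` by more than `ε`, for which no chain of at
most `n` steps (in the extended sense of `Step`) reaches a point of `F` at distance `1 / N` or more
from its starting point. -/
theorem result (N : ℕ) (hN : 1 ≤ N) (ε : ℝ) (hε : 0 < ε) (hεN : ε < 1 / (2 * N)) (n : ℕ) :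
    ∃ η : ℝ, 0 < η ∧ ∀ F : Finset ℝ, (∀ p ∈ F, 0 ≤ p ∧ p ≤ 1) → (0 : ℝ) ∈ F → (1 : ℝ) ∈ F →
      (∀ y : ℝ, 0 ≤ y → y ≤ 1 → ∃ p ∈ F, |y - p| ≤ η) →
      ∃ T : ℝ → ℝ, (∀ p ∈ F, T p ∈ F ∧ ε < |p - T p|) ∧
        ∀ m ≤ n, ∀ x : ℕ → ℝ, x 0 ∈ F → (∀ i < m, Step F T (x i) (x (i + 1))) →
          |x m - x 0| < 1 / N := by
  obtain ⟨η, hη, hmain⟩ := metric N hN ε hε hεN n
  refine ⟨η, hη, ?_⟩
  intro F hF h0 h1 hd
  obtain ⟨T, hT, hch⟩ := hmain F hF h0 h1 hd
  refine ⟨T, hT, ?_⟩
  intro m hm x hx0 hst
  have hxF : ∀ i ≤ m, x i ∈ F := by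
    intro i
    induction i with
    | zero => intro _; exact hx0
    | succ i ih =>
      intro hi
      have hxi := ih (by omega)
      rcases hst i (by omega) with h | ⟨p', hp', h⟩
      · exact h.1
      · have hp'F : p' ∈ F := by
          rcases hp' with rfl | h
          · exact hxi
          · exact h.1
        rcases h with h | h
        · rw [h]; exact (hT p' hp'F).1
        · exact h.1
  apply hch m hm x hxF
  intro i hi
  have hxi := hxF i hi.le
  rcases hst i hi with h | ⟨p', hp', h⟩
  · left; exact nbr_near hF hd hxi h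
  · right
    have hp'F : p' ∈ F := by
      rcases hp' with rfl | h
      · exact hxi
      · exact h.1
    refine ⟨p', hp'F, ?_, ?_⟩
    · rcases hp' with rfl | h
      · simp only [sub_self, abs_zero]; linarith
      · exact nbr_near hF hd hxi h
    · rcases h with h | h
      · rw [h]; simp only [sub_self, abs_zero]; linarith
      · exact nbr_near hF hd (hT p' hp'F).1 h

end Pool.Agent.Results.MP_4e7ec3_co.RobustTrap
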